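import Pool.Agent.R533.VC.Graph

/-!
# Relations of small VC dimension in rows and relations of small VC dimension in columns

Let `F(x, y) = g(x, f(x, y), h(x, y))`, where `f` has few different columns on all small sets of rows and
`h` has few different rows on all small sets of columns. If `F` has small rank then every rectangle
contains a large monochromatic rectangle. The first part is the sampling argument of the file
`R533/VC/Pack`, for functions with values in any set.
-/

set_option autoImplicit false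

namespace Pool.Agent.U278.VC

open Finset Pool.Agent.H630R2.LR Module Pool.Agent.R533.VC

/-- At most `(m + 1) ^ D` different columns on any `m` rows. -/
def GrowthZ {X Y Z : Type*} [DecidableEq Z] (F : X → Y → Z) (D : ℕ) : Prop :=
  ∀ (m : ℕ) (x : Fin m → X) (P : Finset Y),
    (P.image (fun (y : Y) (i : Fin m) => F (x i) y)).card ≤ (m + 1) ^ D

/-- the number of rows of `A` at which two columns differ -/
def difZ {X Y Z : Type*} [DecidableEq Z] (F : X → Y → Z) (A : Finset X) (y y' : Y) : ℕ :=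
  (A.filter (fun x => F x y ≠ F x y')).card

theorem sampleZ {X Y Z : Type*} [DecidableEq Z] (F : X → Y → Z) (A : Finset X)
    (hA : A.Nonempty) (P : Finset Y) (e : ℕ) (he : 1 ≤ e)
    (hsep : ∀ y ∈ P, ∀ y' ∈ P, y ≠ y' → A.card < e * difZ F A y y') (m : ℕ)
    (hm : (P.card : ℝ) ^ 2 * (1 - 1 / (e : ℝ)) ^ m < 1) :
    ∃ x : Fin m → X, ∀ y ∈ P, ∀ y' ∈ P, (∀ i, F (x i) y = F (x i) y') → y = y' := by
  classical
  by_contra hcon
  push Not at hcon
  have he0 : (0 : ℝ) < e := by exact_mod_cast he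
  let ag : Y × Y → Finset X := fun p => A.filter (fun x => F x p.1 = F x p.2)
  have hsub : Fintype.piFinset (fun _ : Fin m => A) ⊆
      P.offDiag.biUnion (fun p => Fintype.piFinset (fun _ : Fin m => ag p)) := by
    intro x hx
    rw [Fintype.mem_piFinset] at hx
    obtain ⟨y, hy, y', hy', hag, hne⟩ := hcon x
    rw [mem_biUnion]
    refine ⟨(y, y'), mem_offDiag.mpr ⟨hy, hy', hne⟩, ?_⟩
    rw [Fintype.mem_piFinset]
    intro i
    exact mem_filter.mpr ⟨hx i, hag i⟩
  have h1 := (card_le_card hsub).trans card_biUnion_le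
  simp only [Fintype.card_piFinset_const] at h1
  have hAc : (0 : ℝ) < A.card := by exact_mod_cast hA.card_pos
  have h2 : ∀ p ∈ P.offDiag, ((ag p).card : ℝ) ^ m ≤ ((1 - 1 / (e : ℝ)) * A.card) ^ m := by
    intro p hp
    rw [mem_offDiag] at hp
    refine pow_le_pow_left₀ (Nat.cast_nonneg _) ?_ _
    have h3 := hsep p.1 hp.1 p.2 hp.2.1 hp.2.2
    have h4 : (ag p).card + difZ F A p.1 p.2 = A.card :=
      card_filter_add_card_filter_not (s := A) (fun x => F x p.1 = F x p.2)
    have h5 : (A.card : ℝ) ≤ e * difZ F A p.1 p.2 := by exact_mod_cast h3.le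
    have h6 : ((ag p).card : ℝ) = A.card - difZ F A p.1 p.2 := by
      rw [← h4]; push_cast; ring
    have h7 : (A.card : ℝ) * (1 / e) ≤ difZ F A p.1 p.2 := by
      rw [mul_one_div, div_le_iff₀ he0]
      linarith
    rw [h6]
    nlinarith
  have h3 : (A.card : ℝ) ^ m ≤ (P.card : ℝ) ^ 2 * ((1 - 1 / (e : ℝ)) * A.card) ^ m := by
    calc (A.card : ℝ) ^ m ≤ ∑ p ∈ P.offDiag, ((ag p).card : ℝ) ^ m := by exact_mod_cast h1
      _ ≤ ∑ _p ∈ P.offDiag, ((1 - 1 / (e : ℝ)) * A.card) ^ m := sum_le_sum h2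
      _ = (P.offDiag.card : ℝ) * ((1 - 1 / (e : ℝ)) * A.card) ^ m := by
          rw [sum_const, nsmul_eq_mul]
      _ ≤ (P.card : ℝ) ^ 2 * ((1 - 1 / (e : ℝ)) * A.card) ^ m := by
          refine mul_le_mul_of_nonneg_right ?_ ?_
          · rw [offDiag_card, pow_two]
            have : P.card * P.card - P.card ≤ P.card * P.card := Nat.sub_le _ _
            exact_mod_cast this
          · refine pow_nonneg (mul_nonneg ?_ hAc.le) _
            have : 1 / (e : ℝ) ≤ 1 := by
              rw [div_le_one he0]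
              exact_mod_cast he
            linarith
  rw [mul_pow, ← mul_assoc] at h3
  have h4 : (0 : ℝ) < (A.card : ℝ) ^ m := pow_pos hAc m
  nlinarith

theorem packZ {X Y Z : Type*} [DecidableEq Z] (F : X → Y → Z) (D : ℕ)
    (hG : GrowthZ F D) (A : Finset X) (hA : A.Nonempty) (P : Finset Y) (e : ℕ) (he : 1 ≤ e)
    (hsep : ∀ y ∈ P, ∀ y' ∈ P, y ≠ y' → A.card < e * difZ F A y y') (s t : ℕ)
    (hs : 2 * e ≤ 2 ^ s) (ht : 2 * D ≤ 2 ^ t) : P.card ≤ 2 ^ (2 * D * (s + t) + 2) := by
  set L := Nat.clog 2 P.card with hL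
  have hPL : P.card ≤ 2 ^ L := Nat.le_pow_clog (by norm_num) _
  refine hPL.trans (Nat.pow_le_pow_right (by norm_num) ?_)
  have he0 : (0 : ℝ) < e := by exact_mod_cast he
  have he1 : (0 : ℝ) ≤ 1 - 1 / (e : ℝ) := by
    have : 1 / (e : ℝ) ≤ 1 := by
      rw [div_le_one he0]
      exact_mod_cast he
    linarith
  obtain ⟨x, hx⟩ := sampleZ F A hA P e he hsep (e * (2 * L + 1)) (by
    have h1 : (P.card : ℝ) ≤ 2 ^ L := by exact_mod_cast hPL
    calc (P.card : ℝ) ^ 2 * (1 - 1 / (e : ℝ)) ^ (e * (2 * L + 1))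
        ≤ (2 ^ L) ^ 2 * (1 / 2) ^ (2 * L + 1) := by
          apply mul_le_mul
          · exact pow_le_pow_left₀ (Nat.cast_nonneg _) h1 _
          · rw [pow_mul]
            exact pow_le_pow_left₀ (pow_nonneg he1 e) (half_pow e he) _
          · exact pow_nonneg he1 _
          · positivity
      _ = 1 / 2 := by
          rw [← pow_mul, pow_succ, mul_comm L 2, ← mul_assoc, ← mul_pow]
          norm_num
      _ < 1 := by norm_num)
  have hP := hG _ x P
  rw [card_image_of_injOn (fun y hy y' hy' h => hx y hy y' hy' fun i => congrFun h i)] at hP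
  rcases Nat.lt_or_ge 1 P.card with h1 | h1
  · have h2 := Nat.pow_pred_clog_lt_self (b := 2) (by norm_num) h1
    rw [← hL] at h2
    have h3 : e * (2 * L + 1) + 1 ≤ 2 ^ s * (L + 1) := by
      calc e * (2 * L + 1) + 1 ≤ e * (2 * L + 1) + e := by omega
        _ = 2 * e * (L + 1) := by ring
        _ ≤ _ := Nat.mul_le_mul_right _ hs
    set a := (L + 1) / 2 ^ t with ha
    have h4 : L + 1 ≤ 2 ^ (t + a) := by
      have h5 := Nat.lt_mul_div_succ (L + 1) (b := 2 ^ t) (by positivity)
      rw [← ha] at h5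
      rw [pow_add]
      exact h5.le.trans (Nat.mul_le_mul_left _ (Nat.lt_two_pow_self (n := a)))
    have h6 : 2 ^ (L - 1) < 2 ^ ((s + t + a) * D) := by
      refine lt_of_lt_of_le h2 (hP.trans ?_)
      calc (e * (2 * L + 1) + 1) ^ D ≤ (2 ^ s * (L + 1)) ^ D := Nat.pow_le_pow_left h3 _
        _ ≤ (2 ^ s * 2 ^ (t + a)) ^ D := Nat.pow_le_pow_left (Nat.mul_le_mul_left _ h4) _
        _ = 2 ^ ((s + t + a) * D) := by rw [← pow_add, ← pow_mul, add_assoc]
    have h7 : L - 1 < (s + t + a) * D := (Nat.pow_lt_pow_iff_right (by norm_num)).mp h6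
    have h8 : 2 * D * a ≤ L + 1 :=
      (Nat.mul_le_mul_right a ht).trans (Nat.mul_div_le (L + 1) (2 ^ t))
    have h9 : 2 * ((s + t + a) * D) = 2 * D * (s + t) + 2 * D * a := by ring
    omega
  · have : L = 0 := Nat.clog_of_right_le_one h1 2
    omega

theorem clusterZ {X Y Z : Type*} [DecidableEq Z] (F : X → Y → Z) (A : Finset X)
    (B : Finset Y) (hB : B.Nonempty) (e : ℕ) :
    ∃ P : Finset Y, (∀ y ∈ P, ∀ y' ∈ P, y ≠ y' → A.card < e * difZ F A y y') ∧
      ∃ p ∈ P, ∃ B' ⊆ B, (∀ y ∈ B', e * difZ F A y p ≤ A.card) ∧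
        B.card ≤ P.card * B'.card := by
  classical
  let Sep : Finset Y → Prop := fun P => ∀ y ∈ P, ∀ y' ∈ P, y ≠ y' → A.card < e * difZ F A y y'
  obtain ⟨P, hP, hmax⟩ := exists_max_image (B.powerset.filter Sep) card
    ⟨∅, mem_filter.mpr ⟨by simp, by intro y hy; simp at hy⟩⟩
  rw [mem_filter, mem_powerset] at hP
  have hsymm : ∀ y y', difZ F A y y' = difZ F A y' y := by
    intro y y'
    unfold difZ
    congr 1
    ext x
    simp [ne_comm]
  have hcov : ∀ y ∈ B, ∃ p ∈ P, e * difZ F A y p ≤ A.card := by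
    intro y hy
    by_contra hcon
    push Not at hcon
    have hyP : y ∉ P := by
      intro hyP
      have := hcon y hyP
      have h0 : difZ F A y y = 0 := by simp [difZ]
      rw [h0] at this
      omega
    have h1 : insert y P ∈ B.powerset.filter Sep := by
      rw [mem_filter, mem_powerset]
      refine ⟨insert_subset hy hP.1, ?_⟩
      intro z hz z' hz' hne
      rw [mem_insert] at hz hz'
      rcases hz with rfl | hz
      · rcases hz' with rfl | hz'
        · exact absurd rfl hne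
        · exact hcon z' hz'
      · rcases hz' with rfl | hz'
        · rw [hsymm]
          exact hcon z hz
        · exact hP.2 z hz z' hz' hne
    have h2 := hmax _ h1
    rw [card_insert_of_notMem hyP] at h2
    omega
  have hPne : P.Nonempty := by
    obtain ⟨y, hy⟩ := hB
    obtain ⟨p, hp, _⟩ := hcov y hy
    exact ⟨p, hp⟩
  let Bp : Y → Finset Y := fun p => B.filter (fun y => e * difZ F A y p ≤ A.card)
  obtain ⟨p, hp, hpmax⟩ := exists_max_image P (fun p => (Bp p).card) hPne
  refine ⟨P, hP.2, p, hp, Bp p, filter_subset _ _, fun y hy => (mem_filter.mp hy).2, ?_⟩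
  have hsub : B ⊆ P.biUnion Bp := by
    intro y hy
    obtain ⟨p, hp, h⟩ := hcov y hy
    exact mem_biUnion.mpr ⟨p, hp, mem_filter.mpr ⟨hy, h⟩⟩
  calc B.card ≤ ∑ p ∈ P, (Bp p).card := (card_le_card hsub).trans card_biUnion_le
    _ ≤ ∑ _p ∈ P, (Bp p).card := sum_le_sum fun q hq => hpmax q hq
    _ = P.card * (Bp p).card := by rw [sum_const, smul_eq_mul]


theorem exists_popular {Y Z : Type*} [Fintype Z] [DecidableEq Z] (B : Finset Y) (hB : B.Nonempty)
    (k : Y → Z) : ∃ c : Z, B.card ≤ Fintype.card Z * (B.filter (fun y => k y = c)).card := by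
  classical
  by_contra hcon
  push Not at hcon
  obtain ⟨y0, hy0⟩ := hB
  have hne : (univ : Finset Z).Nonempty := ⟨k y0, mem_univ _⟩
  have h1 : ∑ c : Z, (B.filter (fun y => k y = c)).card = B.card :=
    (card_eq_sum_card_fiberwise (f := k) (s := B) (t := univ) (fun y _ => mem_univ _)).symm
  have h2 : ∑ c : Z, Fintype.card Z * (B.filter (fun y => k y = c)).card < ∑ _c : Z, B.card :=
    sum_lt_sum_of_nonempty hne fun c _ => hcon c
  rw [← mul_sum, h1, sum_const, smul_eq_mul, card_univ] at h2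
  exact lt_irrefl _ h2

/-- **Large monochromatic rectangles.** -/
theorem rich_local {X Y Z₁ Z₂ : Type*} [DecidableEq Z₁] [DecidableEq Z₂] [Fintype Z₂]
    (F : X → Y → Bool) (f : X → Y → Z₁) (h : X → Y → Z₂) (g : X → Z₁ → Z₂ → Bool) (D E r u n : ℕ)
    (hf : GrowthZ f D) (hh : GrowthZ (fun y x => h x y) E) (hu : r + 1 ≤ 2 ^ u)
    (hn : Fintype.card Z₂ ≤ 2 ^ n) (hD : 2 * D ≤ 2 ^ (1 + u)) (hE : 2 * E ≤ 2 ^ (1 + u))
    (A : Finset X) (B : Finset Y) (hA : A.Nonempty) (hB : B.Nonempty) (hrk : rk F A B ≤ r)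
    (hF : ∀ x ∈ A, ∀ y ∈ B, F x y = g x (f x y) (h x y)) :
    ∃ A' ⊆ A, ∃ B' ⊆ B, ∃ v : Bool, (∀ x ∈ A', ∀ y ∈ B', F x y = v) ∧
      A.card * B.card ≤ 2 ^ (3 + n + (2 * E * (5 + 2 * u + n) + 2) +
        (2 * D * (6 + 2 * u + (2 * E * (5 + 2 * u + n) + 2)) + 2)) * (A'.card * B'.card) := by
  classical
  set a := 2 * E * (5 + 2 * u + n) + 2 with ha
  set b := 2 * D * (6 + 2 * u + a) + 2 with hb
  set N := Fintype.card Z₂ with hN
  -- the columns: few different values of `f`
  obtain ⟨P, hsP, p, hp, B1, hB1, hcl1, hcd1⟩ := clusterZ f A B hB (16 * (r + 1) * 2 ^ a)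
  have hPc : P.card ≤ 2 ^ b := by
    have h1 := packZ f D hf A hA P (16 * (r + 1) * 2 ^ a)
      (Nat.succ_le_of_lt (by positivity)) hsP (5 + u + a) (1 + u)
      (by
        calc 2 * (16 * (r + 1) * 2 ^ a) = 2 ^ 5 * (r + 1) * 2 ^ a := by ring
          _ ≤ 2 ^ 5 * 2 ^ u * 2 ^ a := by gcongr
          _ = 2 ^ (5 + u + a) := by rw [pow_add 2 (5 + u) a, pow_add 2 5 u]) hD
    have e : 2 * D * (5 + u + a + (1 + u)) + 2 = b := by rw [hb]; ring
    rwa [e] at h1
  have hB1ne : B1.Nonempty := by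
    rw [nonempty_iff_ne_empty]
    intro h0
    rw [h0, card_empty, mul_zero] at hcd1
    have := hB.card_pos
    omega
  have hNpos : 0 < N := by
    obtain ⟨x0, _⟩ := hA
    obtain ⟨y0, _⟩ := hB
    exact Fintype.card_pos_iff.mpr ⟨h x0 y0⟩
  -- the rows: few different values of `h`
  obtain ⟨Q, hsQ, q, hq, A1, hA1, hcl2, hcd2⟩ := clusterZ (fun y x => h x y) B1 A hA
    (8 * (r + 1) * N)
  have hQc : Q.card ≤ 2 ^ a := by
    have h1 := packZ (fun y x => h x y) E hh B1 hB1ne Q (8 * (r + 1) * N)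
      (Nat.mul_pos (by positivity) hNpos) hsQ (4 + u + n) (1 + u)
      (by
        calc 2 * (8 * (r + 1) * N) = 2 ^ 4 * (r + 1) * N := by ring
          _ ≤ 2 ^ 4 * 2 ^ u * 2 ^ n := by gcongr
          _ = 2 ^ (4 + u + n) := by rw [pow_add 2 (4 + u) n, pow_add 2 4 u]) hE
    have e : 2 * E * (4 + u + n + (1 + u)) + 2 = a := by rw [ha]; ring
    rwa [e] at h1
  have hA1ne : A1.Nonempty := by
    rw [nonempty_iff_ne_empty]
    intro h0
    rw [h0, card_empty, mul_zero] at hcd2
    have := hA.card_pos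
    omega
  -- the popular value of `h q`
  obtain ⟨c, hc⟩ := exists_popular B1 hB1ne (fun y => h q y)
  set B2 := B1.filter (fun y => h q y = c) with hB2
  have hB2ne : B2.Nonempty := by
    rw [nonempty_iff_ne_empty]
    intro h0
    rw [h0, card_empty, mul_zero] at hc
    have := hB1ne.card_pos
    omega
  -- the majority value
  obtain ⟨v, hv⟩ := exists_popular A1 hA1ne (fun x => g x (f x p) c)
  rw [Fintype.card_bool] at hv
  set A2 := A1.filter (fun x => g x (f x p) c = v) with hA2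
  have herr : 4 * (r + 1) * (∑ x ∈ A2, (B2.filter (fun y => F x y ≠ v)).card) ≤
      A2.card * B2.card := by
    have h1 : ∑ x ∈ A2, (B2.filter (fun y => F x y ≠ v)).card ≤
        ∑ x ∈ A2, ((B2.filter (fun y => f x y ≠ f x p)).card +
          (B2.filter (fun y => h x y ≠ c)).card) := by
      refine sum_le_sum fun x hx => ?_
      refine le_trans (card_le_card ?_) (card_union_le _ _)
      intro y hy
      obtain ⟨hyB, hyv⟩ := mem_filter.mp hy
      rw [mem_union]
      by_cases h2 : f x y = f x p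
      · right
        refine mem_filter.mpr ⟨hyB, fun h3 => hyv ?_⟩
        rw [hF x (hA1 (mem_filter.mp hx).1) y (hB1 (mem_filter.mp hyB).1), h2, h3]
        exact (mem_filter.mp hx).2
      · left
        exact mem_filter.mpr ⟨hyB, h2⟩
    have h2 : 8 * (r + 1) * ∑ x ∈ A2, (B2.filter (fun y => f x y ≠ f x p)).card ≤
        A2.card * B2.card := by
      have e1 : ∑ x ∈ A2, (B2.filter (fun y => f x y ≠ f x p)).card =
          ∑ y ∈ B2, (A2.filter (fun x => f x y ≠ f x p)).card := by
        simp only [card_filter]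
        exact sum_comm
      have e2 : ∀ y ∈ B2, 8 * (r + 1) * (A2.filter (fun x => f x y ≠ f x p)).card ≤ A2.card := by
        intro y hy
        have i1 : (A2.filter (fun x => f x y ≠ f x p)).card ≤ difZ f A y p := by
          refine card_le_card (filter_subset_filter _ ?_)
          exact (filter_subset _ _).trans hA1
        have i2 := hcl1 y (mem_filter.mp hy).1
        have i3 : A.card ≤ 2 ^ a * (2 * A2.card) := by
          refine hcd2.trans (Nat.mul_le_mul hQc hv)
        have i4 : (2 * 2 ^ a) * (8 * (r + 1) * difZ f A y p) ≤ (2 * 2 ^ a) * A2.card := by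
          calc (2 * 2 ^ a) * (8 * (r + 1) * difZ f A y p)
              = 16 * (r + 1) * 2 ^ a * difZ f A y p := by ring
            _ ≤ A.card := i2
            _ ≤ 2 ^ a * (2 * A2.card) := i3
            _ = (2 * 2 ^ a) * A2.card := by ring
        have i5 := Nat.le_of_mul_le_mul_left i4 (by positivity)
        exact (Nat.mul_le_mul_left _ i1).trans i5
      rw [e1, mul_sum]
      calc ∑ y ∈ B2, 8 * (r + 1) * (A2.filter (fun x => f x y ≠ f x p)).card
          ≤ ∑ _y ∈ B2, A2.card := sum_le_sum e2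
        _ = A2.card * B2.card := by rw [sum_const, smul_eq_mul, mul_comm]
    have h3 : 8 * (r + 1) * ∑ x ∈ A2, (B2.filter (fun y => h x y ≠ c)).card ≤
        A2.card * B2.card := by
      have e2 : ∀ x ∈ A2, 8 * (r + 1) * (B2.filter (fun y => h x y ≠ c)).card ≤ B2.card := by
        intro x hx
        have i1 : (B2.filter (fun y => h x y ≠ c)).card ≤ difZ (fun y x => h x y) B1 x q := by
          refine card_le_card ?_
          intro y hy
          obtain ⟨hyB, hyc⟩ := mem_filter.mp hy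
          obtain ⟨hy1, hy2⟩ := mem_filter.mp hyB
          refine mem_filter.mpr ⟨hy1, ?_⟩
          change h x y ≠ h q y
          rw [hy2]
          exact hyc
        have i2 := hcl2 x (mem_filter.mp hx).1
        have i4 : N * (8 * (r + 1) * difZ (fun y x => h x y) B1 x q) ≤ N * B2.card := by
          calc N * (8 * (r + 1) * difZ (fun y x => h x y) B1 x q)
              = 8 * (r + 1) * N * difZ (fun y x => h x y) B1 x q := by ring
            _ ≤ B1.card := i2
            _ ≤ N * B2.card := hc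
        have i5 := Nat.le_of_mul_le_mul_left i4 hNpos
        exact (Nat.mul_le_mul_left _ i1).trans i5
      rw [mul_sum]
      calc ∑ x ∈ A2, 8 * (r + 1) * (B2.filter (fun y => h x y ≠ c)).card
          ≤ ∑ _x ∈ A2, B2.card := sum_le_sum e2
        _ = A2.card * B2.card := by rw [sum_const, smul_eq_mul]
    rw [sum_add_distrib] at h1
    have h4 : 2 * (4 * (r + 1) * ∑ x ∈ A2, (B2.filter (fun y => F x y ≠ v)).card) ≤
        2 * (A2.card * B2.card) := by
      calc 2 * (4 * (r + 1) * ∑ x ∈ A2, (B2.filter (fun y => F x y ≠ v)).card)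
          = 8 * (r + 1) * ∑ x ∈ A2, (B2.filter (fun y => F x y ≠ v)).card := by ring
        _ ≤ 8 * (r + 1) * (∑ x ∈ A2, (B2.filter (fun y => f x y ≠ f x p)).card +
              ∑ x ∈ A2, (B2.filter (fun y => h x y ≠ c)).card) := Nat.mul_le_mul_left _ h1
        _ = 8 * (r + 1) * ∑ x ∈ A2, (B2.filter (fun y => f x y ≠ f x p)).card +
              8 * (r + 1) * ∑ x ∈ A2, (B2.filter (fun y => h x y ≠ c)).card := by ring
        _ ≤ A2.card * B2.card + A2.card * B2.card := Nat.add_le_add h2 h3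
        _ = 2 * (A2.card * B2.card) := by ring
    omega
  obtain ⟨A', hA', B', hB', hval, hcd⟩ := few_errors F A2 B2 hB2ne v r
    ((rk_mono F ((filter_subset _ _).trans hA1) ((filter_subset _ _).trans hB1)).trans hrk) herr
  refine ⟨A', hA'.trans ((filter_subset _ _).trans hA1), B',
    hB'.trans ((filter_subset _ _).trans hB1), v, hval, ?_⟩
  calc A.card * B.card ≤ (Q.card * A1.card) * (P.card * B1.card) := Nat.mul_le_mul hcd2 hcd1
    _ ≤ (2 ^ a * (2 * A2.card)) * (2 ^ b * (N * B2.card)) :=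
        Nat.mul_le_mul (Nat.mul_le_mul hQc hv) (Nat.mul_le_mul hPc hc)
    _ = 2 * N * 2 ^ a * 2 ^ b * (A2.card * B2.card) := by ring
    _ ≤ 2 * 2 ^ n * 2 ^ a * 2 ^ b * (4 * (A'.card * B'.card)) := by gcongr
    _ = 2 ^ (3 + n + a + b) * (A'.card * B'.card) := by
        rw [pow_add 2 (3 + n + a) b, pow_add 2 (3 + n) a, pow_add 2 3 n]
        ring

end Pool.Agent.U278.VC
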