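import Pool.Agent.U278.VC.Mix

/-!
# Protocols followed by relations of small VC dimension

A protocol with `c` bits divides the matrix of `F` into rectangles. If on each of them `F` is a Boolean
function of relations of small VC dimension (in rows or in columns) then the bound of the log-rank
conjecture holds for `F`.
-/

set_option autoImplicit false

namespace Pool.Agent.U278.VC

open Finset Pool.Agent.H630R2.LR Module Pool.Agent.R533.VC

theorem leaf_rect {X Y : Type*} (owner : List Bool → Bool) (a : List Bool → X → Bool)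
    (b : List Bool → Y → Bool) (c : ℕ) (A : Finset X) (B : Finset Y) (hA : A.Nonempty)
    (hB : B.Nonempty) :
    ∃ τ : List Bool, ∃ A' ⊆ A, ∃ B' ⊆ B, A'.Nonempty ∧ B'.Nonempty ∧
      (∀ x ∈ A', ∀ y ∈ B', tr owner a b x y c = τ) ∧
      A.card * B.card ≤ 2 ^ c * (A'.card * B'.card) := by
  classical
  obtain ⟨τ, hτ⟩ := exists_popular (Z := List.Vector Bool c) (A ×ˢ B) (hA.product hB)
    (fun p : X × Y => (⟨tr owner a b p.1 p.2 c, tr_length owner a b p.1 p.2 c⟩ :
      List.Vector Bool c))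
  rw [card_vector, Fintype.card_bool, card_product] at hτ
  set A' := A.filter (fun x => ∃ y ∈ B, tr owner a b x y c = τ.1) with hA'
  set B' := B.filter (fun y => ∃ x ∈ A, tr owner a b x y c = τ.1) with hB'
  have hsub : (A ×ˢ B).filter (fun p : X × Y =>
      (⟨tr owner a b p.1 p.2 c, tr_length owner a b p.1 p.2 c⟩ : List.Vector Bool c) = τ) ⊆
      A' ×ˢ B' := by
    intro p hp
    obtain ⟨hp1, hp2⟩ := mem_filter.mp hp
    obtain ⟨hp3, hp4⟩ := mem_product.mp hp1
    have hp5 : tr owner a b p.1 p.2 c = τ.1 := congrArg Subtype.val hp2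
    exact mem_product.mpr ⟨mem_filter.mpr ⟨hp3, p.2, hp4, hp5⟩,
      mem_filter.mpr ⟨hp4, p.1, hp3, hp5⟩⟩
  have hc := card_le_card hsub
  rw [card_product] at hc
  have hle : A.card * B.card ≤ 2 ^ c * (A'.card * B'.card) :=
    hτ.trans (Nat.mul_le_mul_left _ hc)
  have hpos : 0 < A'.card * B'.card := by
    have h1 : 0 < A.card * B.card := Nat.mul_pos hA.card_pos hB.card_pos
    by_contra h0
    have h2 : A'.card * B'.card = 0 := by omega
    rw [h2, mul_zero] at hle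
    omega
  refine ⟨τ.1, A', filter_subset _ _, B', filter_subset _ _,
    card_pos.mp (Nat.pos_of_mul_pos_right hpos), card_pos.mp (Nat.pos_of_mul_pos_left hpos),
    fun x hx y hy => ?_, hle⟩
  obtain ⟨_, y', hy', h1⟩ := mem_filter.mp hx
  obtain ⟨_, x', hx', h2⟩ := mem_filter.mp hy
  rw [tr_rect owner a b x x' y' y c (h1.trans h2.symm), h1]

/-- vectors of relations of small VC dimension -/
theorem growthZ_vec {X Y : Type*} (k : ℕ) (f : Fin k → X → Y → Bool) (d : Fin k → ℕ)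
    (hf : ∀ i, VCdim (f i) (d i)) : GrowthZ (fun x y (i : Fin k) => f i x y) (∑ i, d i) := by
  classical
  intro m x P
  let T : Fin k → Finset (Fin m → Bool) := fun i => P.image (fun (y : Y) (j : Fin m) => f i (x j) y)
  have h1 : P.image (fun (y : Y) (j : Fin m) (i : Fin k) => f i (x j) y) ⊆
      (Fintype.piFinset T).image (fun τ j i => τ i j) := by
    intro t ht
    rw [mem_image] at ht
    obtain ⟨y, hy, rfl⟩ := ht
    rw [mem_image]
    refine ⟨fun i j => f i (x j) y, ?_, rfl⟩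
    rw [Fintype.mem_piFinset]
    intro i
    exact mem_image_of_mem _ hy
  refine (card_le_card h1).trans (card_image_le.trans ?_)
  rw [Fintype.card_piFinset, ← prod_pow_eq_pow_sum]
  exact prod_le_prod' fun i _ => growth_of_vc (f i) (d i) (hf i) m x P

theorem rich_leaves {X Y Z₁ Z₂ : Type*} [Fintype X] [Fintype Y] [DecidableEq Z₁] [DecidableEq Z₂]
    [Fintype Z₂] (F : X → Y → Bool) (owner : List Bool → Bool) (a : List Bool → X → Bool)
    (b : List Bool → Y → Bool) (c : ℕ) (f : List Bool → X → Y → Z₁) (h : List Bool → X → Y → Z₂)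
    (g : List Bool → X → Z₁ → Z₂ → Bool) (D E u n : ℕ)
    (hf : ∀ τ, GrowthZ (f τ) D) (hh : ∀ τ, GrowthZ (fun y x => h τ x y) E)
    (hF : ∀ x y, F x y = g (tr owner a b x y c) x (f (tr owner a b x y c) x y)
      (h (tr owner a b x y c) x y))
    (hu : (comm F).rank + 1 ≤ 2 ^ u)
    (hn : Fintype.card Z₂ ≤ 2 ^ n) (hD : 2 * D ≤ 2 ^ (1 + u)) (hE : 2 * E ≤ 2 ^ (1 + u)) :
    Rich F (2 ^ (c + (3 + n + (2 * E * (5 + 2 * u + n) + 2) +
        (2 * D * (6 + 2 * u + (2 * E * (5 + 2 * u + n) + 2)) + 2)))) := by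
  intro A B hA hB
  obtain ⟨τ, A1, hA1, B1, hB1, hA1n, hB1n, hτ, hc⟩ := leaf_rect owner a b c A B hA hB
  obtain ⟨A2, hA2, B2, hB2, v, hv, hc2⟩ := rich_local F (f τ) (h τ) (g τ) D E (comm F).rank u n
    (hf τ) (hh τ) hu hn hD hE A1 B1 hA1n hB1n (rk_le F A1 B1)
    (fun x hx y hy => by rw [hF x y, hτ x hx y hy])
  refine ⟨A2, hA2.trans hA1, B2, hB2.trans hB1, v, hv, ?_⟩
  rw [pow_add, mul_assoc]
  exact hc.trans (Nat.mul_le_mul_left _ hc2)

/-- **The log-rank bound.** -/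
theorem proto_leaves {X Y Z₁ : Type*} [Fintype X] [Fintype Y] [DecidableEq Z₁]
    (F : X → Y → Bool) (owner : List Bool → Bool) (a : List Bool → X → Bool)
    (b : List Bool → Y → Bool) (c l : ℕ) (f : List Bool → X → Y → Z₁)
    (h : List Bool → X → Y → (Fin l → Bool))
    (g : List Bool → X → Z₁ → (Fin l → Bool) → Bool) (D E : ℕ)
    (hf : ∀ τ, GrowthZ (f τ) D) (hh : ∀ τ, GrowthZ (fun y x => h τ x y) E)
    (hF : ∀ x y, F x y = g (tr owner a b x y c) x (f (tr owner a b x y c) x y)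
      (h (tr owner a b x y c) x y)) :
    ∃ c' : ℕ, Proto F c' ∧ (c' : ℝ) ≤ 58 * (D + 1) * (E + 1) *
      (Real.logb 2 ((comm F).rank : ℝ) + 1) * (Real.logb 2 ((comm F).rank : ℝ) + l + c + 1) := by
  set r := (comm F).rank with hr
  set Λ : ℝ := Real.logb 2 (r : ℝ) with hΛ
  have hl : (0 : ℝ) ≤ Λ := logb_nonneg r
  have hD0 : (0 : ℝ) ≤ D := Nat.cast_nonneg _
  have hE0 : (0 : ℝ) ≤ E := Nat.cast_nonneg _
  have hl0 : (0 : ℝ) ≤ (l : ℝ) := Nat.cast_nonneg _
  have hc0 : (0 : ℝ) ≤ (c : ℝ) := Nat.cast_nonneg _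
  have hDE : (1 : ℝ) ≤ (D + 1) * (E + 1) := by nlinarith
  have hΛΛ : (1 : ℝ) ≤ (Λ + 1) * (Λ + l + c + 1) := by nlinarith
  by_cases hsmall : r = 0 ∨ r + 1 < D ∨ r + 1 < E
  · refine ⟨r + 1, proto_rank F, ?_⟩
    have h1 : ((r + 1 : ℕ) : ℝ) ≤ (D + 1) * (E + 1) := by
      rcases hsmall with h | h | h
      · rw [h]
        simpa using hDE
      · have : ((r + 1 : ℕ) : ℝ) ≤ D := by exact_mod_cast h.le
        nlinarith
      · have : ((r + 1 : ℕ) : ℝ) ≤ E := by exact_mod_cast h.le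
        nlinarith
    calc ((r + 1 : ℕ) : ℝ) ≤ (D + 1) * (E + 1) := h1
      _ ≤ 58 * ((D + 1) * (E + 1)) * 1 := by nlinarith
      _ ≤ 58 * ((D + 1) * (E + 1)) * ((Λ + 1) * (Λ + l + c + 1)) :=
          mul_le_mul_of_nonneg_left hΛΛ (by positivity)
      _ = _ := by ring
  · push Not at hsmall
    obtain ⟨hr0, hDr, hEr⟩ := hsmall
    have hr1 : 1 ≤ r := Nat.one_le_iff_ne_zero.mpr hr0
    set u := Nat.clog 2 (r + 1) with hu
    have hru : r + 1 ≤ 2 ^ u := Nat.le_pow_clog (by norm_num) _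
    have hu1 : 1 ≤ u := Nat.clog_pos (by norm_num) (by omega)
    have hD2 : 2 * D ≤ 2 ^ (1 + u) := by
      rw [pow_add, pow_one]
      exact Nat.mul_le_mul_left _ (hDr.trans hru)
    have hE2 : 2 * E ≤ 2 ^ (1 + u) := by
      rw [pow_add, pow_one]
      exact Nat.mul_le_mul_left _ (hEr.trans hru)
    have hR := rich_leaves F owner a b c f h g D E u l hf hh hF hru (by simp) hD2 hE2
    set w0 := c + (3 + l + (2 * E * (5 + 2 * u + l) + 2) +
        (2 * D * (6 + 2 * u + (2 * E * (5 + 2 * u + l) + 2)) + 2)) with hw0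
    have hP := nw F _ (Nat.one_le_two_pow) hR (1 + u + w0) (by
      rw [← hr]
      have h1 : 1 ≤ 2 ^ w0 := Nat.one_le_two_pow
      calc 2 * r * 2 ^ w0 + 2 ≤ 2 * r * 2 ^ w0 + 2 * 2 ^ w0 := by omega
        _ = 2 * (r + 1) * 2 ^ w0 := by ring
        _ ≤ 2 * 2 ^ u * 2 ^ w0 := Nat.mul_le_mul_right _ (Nat.mul_le_mul_left _ hru)
        _ = 2 ^ (1 + u + w0) := by rw [pow_add 2 (1 + u) w0, pow_add 2 1 u, pow_one])
    refine ⟨_, hP, ?_⟩
    have hcl : Nat.clog 2 r ≤ u := Nat.clog_mono_right 2 (Nat.le_succ r)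
    have hul : (u : ℝ) ≤ Λ + 1 := by
      have h1 : u ≤ Nat.log 2 r + 1 :=
        Nat.clog_le_of_le_pow (Nat.lt_pow_succ_log_self (by norm_num) r)
      have h2 := log_le r
      have h3 : (u : ℝ) ≤ (Nat.log 2 r : ℝ) + 1 := by exact_mod_cast h1
      linarith
    have hw : 1 + u + w0 ≤ 28 * (D + 1) * (E + 1) * (u + l) + c := by
      obtain ⟨z, hz⟩ := Nat.exists_eq_add_of_le hu1
      rw [hw0, hz]
      ring_nf
      nlinarith [Nat.zero_le (D * z), Nat.zero_le (E * z), Nat.zero_le (D * E),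
        Nat.zero_le (D * E * z), Nat.zero_le (D * l), Nat.zero_le (E * l),
        Nat.zero_le (D * E * l), Nat.zero_le z, Nat.zero_le l, Nat.zero_le D, Nat.zero_le E]
    have h4 : 2 * (1 + u + w0) * Nat.clog 2 r + 2 ≤ 58 * (D + 1) * (E + 1) * u * (u + l + c) := by
      have h5 : 1 ≤ (D + 1) * (E + 1) * u * (u + l + c) := by
        refine Nat.one_le_iff_ne_zero.mpr ?_
        have : 0 < (D + 1) * (E + 1) * u * (u + l + c) := by positivity
        omega
      have h6 : c ≤ 28 * (D + 1) * (E + 1) * c := by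
        nlinarith [Nat.zero_le (D * c), Nat.zero_le (E * c), Nat.zero_le (D * E * c)]
      calc 2 * (1 + u + w0) * Nat.clog 2 r + 2
          ≤ 2 * (28 * (D + 1) * (E + 1) * (u + l) + c) * u + 2 := by gcongr
        _ ≤ 2 * (28 * (D + 1) * (E + 1) * (u + l) + 28 * (D + 1) * (E + 1) * c) * u + 2 := by
            gcongr
        _ = 56 * ((D + 1) * (E + 1) * u * (u + l + c)) + 2 := by ring
        _ ≤ 56 * ((D + 1) * (E + 1) * u * (u + l + c)) +
            2 * ((D + 1) * (E + 1) * u * (u + l + c)) := by omega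
        _ = 58 * (D + 1) * (E + 1) * u * (u + l + c) := by ring
    have h5 : ((2 * (1 + u + w0) * Nat.clog 2 r + 2 : ℕ) : ℝ) ≤
        58 * ((D : ℝ) + 1) * ((E : ℝ) + 1) * (u : ℝ) * ((u : ℝ) + l + c) := by
      exact_mod_cast h4
    refine h5.trans ?_
    have hu0 : (0 : ℝ) ≤ (u : ℝ) := Nat.cast_nonneg _
    have h6 : (u : ℝ) * ((u : ℝ) + l + c) ≤ (Λ + 1) * (Λ + l + c + 1) := by
      apply mul_le_mul hul (by linarith) (by positivity) (by linarith)
    calc 58 * ((D : ℝ) + 1) * ((E : ℝ) + 1) * (u : ℝ) * ((u : ℝ) + l + c)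
        = 58 * ((D : ℝ) + 1) * ((E : ℝ) + 1) * ((u : ℝ) * ((u : ℝ) + l + c)) := by ring
      _ ≤ 58 * ((D : ℝ) + 1) * ((E : ℝ) + 1) * ((Λ + 1) * (Λ + l + c + 1)) :=
          mul_le_mul_of_nonneg_left h6 (by positivity)
      _ = _ := by ring

end Pool.Agent.U278.VC
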